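import Pool.Agent.W683.BH.Fin
import Pool.Agent.Y320.BP.Cube3

/-!
# Zero-dimensional models for `C(B(κ))`: Banach-Mazur distances, bands and products
-/

set_option autoImplicit false

namespace Pool.Agent.Results.MP_751bb7_an.BanachMazurBands

open Pool.Agent.W683.BH Pool.Agent.Y320.BP Pool.Agent.Helper358.LOne Cardinal

theorem le_iter (m : ℕ) (c : Cardinal.{0}) : c ≤ Order.succ^[m] c := by
  induction m with
  | zero => exact le_rfl
  | succ m ih =>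
    rw [Function.iterate_succ_apply']
    exact ih.trans (Order.le_succ _)

theorem uncountable_of {κ : Type} {m : ℕ} (h : Order.succ^[m] continuum ≤ #κ) :
    Uncountable κ := by
  rw [← Cardinal.aleph0_lt_mk_iff]
  exact aleph0_lt_continuum.trans_le ((le_iter m _).trans h)

theorem ball_U (κ : Type) : Nonempty (Ball κ ≃ₜ U κ) := bk κ

theorem homeo_U {κ : Type} [Uncountable κ] {a b : κ → ℝ} (h : Band a b) (K : Type)
    [TopologicalSpace K]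
    (hK : Nonempty ((K × (ℕ → Set.Icc (0 : ℝ) 1)) ≃ₜ (ℕ → Set.Icc (0 : ℝ) 1))) :
    Nonempty ((B a b × K) ≃ₜ U κ) := by
  obtain ⟨e⟩ := ball_U κ
  obtain ⟨f⟩ := ball_band h
  obtain ⟨g⟩ := band_absorbs h h rfl K hK
  exact ⟨(g.symm.trans f.symm).trans e⟩

/-- `B a b = B(κ, a, b)` is the band of all `x ∈ B(κ)` with `a i ≤ x i ≤ b i`; `Band a b` says that
`a i < b i` for all `i` and `∑ (a i)⁺ + (b i)⁻ < 1` (for instance `B(κ)`, `B⁺(κ)`).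

Let `κ` be a set of cardinality at least `𝔠^{+m}`, `K` a space with `K × [0,1]^ℕ ≅ [0,1]^ℕ` (for
instance a point or a cube `[0,1]^J`, `J` countable) and `L` a zero-dimensional compact Hausdorff
space.

1. Every isomorphism `Φ` from `C(B(κ, a, b) × K)` onto `C(L)` satisfies `‖Φ‖ ‖Φ⁻¹‖ > d` for all
   `d ≥ 1` with `76 d³ ≤ m`.
2. The same for isomorphisms from `C(B(κ))` onto `C(L)`.
3. If `|κ| ≥ 𝔠^{+m}` for all `m`, there is no isomorphism from `C(B(κ, a, b) × K)` onto `C(L)`, and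
   none from `C(B(κ))` onto `C(L)`. -/
theorem result (κ L : Type) [TopologicalSpace L] [CompactSpace L] [T2Space L]
    (hL : TopologicalSpace.IsTopologicalBasis {s : Set L | IsClopen s}) :
    (∀ (m : ℕ), Order.succ^[m] continuum ≤ #κ → ∀ (a b : κ → ℝ), Band a b →
      ∀ (K : Type) [TopologicalSpace K] [CompactSpace K],
      Nonempty ((K × (ℕ → Set.Icc (0 : ℝ) 1)) ≃ₜ (ℕ → Set.Icc (0 : ℝ) 1)) →
      ∀ (Φ : C(B a b × K, ℝ) ≃L[ℝ] C(L, ℝ)) (d : ℝ), 1 ≤ d → 76 * d ^ 3 ≤ m →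
      d < ‖(Φ : C(B a b × K, ℝ) →L[ℝ] C(L, ℝ))‖ *
        ‖(Φ.symm : C(L, ℝ) →L[ℝ] C(B a b × K, ℝ))‖) ∧
    (∀ (m : ℕ), Order.succ^[m] continuum ≤ #κ →
      ∀ (Φ : C(Ball κ, ℝ) ≃L[ℝ] C(L, ℝ)) (d : ℝ), 1 ≤ d → 76 * d ^ 3 ≤ m →
      d < ‖(Φ : C(Ball κ, ℝ) →L[ℝ] C(L, ℝ))‖ *
        ‖(Φ.symm : C(L, ℝ) →L[ℝ] C(Ball κ, ℝ))‖) ∧
    ((∀ m : ℕ, Order.succ^[m] continuum ≤ #κ) →
      IsEmpty (C(Ball κ, ℝ) ≃L[ℝ] C(L, ℝ)) ∧
      ∀ (a b : κ → ℝ), Band a b → ∀ (K : Type) [TopologicalSpace K] [CompactSpace K],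
        Nonempty ((K × (ℕ → Set.Icc (0 : ℝ) 1)) ≃ₜ (ℕ → Set.Icc (0 : ℝ) 1)) →
        IsEmpty (C(B a b × K, ℝ) ≃L[ℝ] C(L, ℝ))) := by
  have := tot_disc L hL
  have hB : Nonempty (Ball κ ≃ₜ U κ) := ball_U κ
  refine ⟨fun m hm a b h K _ _ hK Φ d hd hmd => ?_, fun m hm Φ d hd hmd => ?_, fun hκ => ⟨?_, ?_⟩⟩
  · have := uncountable_of hm
    exact quant3 κ (B a b × K) L (homeo_U h K hK) d hd m hmd hm Φ
  · exact quant3 κ (Ball κ) L hB d hd m hmd hm Φ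
  · exact no_iso' κ (Ball κ) L hB hκ
  · intro a b h K _ _ hK
    have := uncountable_of (hκ 0)
    exact no_iso' κ (B a b × K) L (homeo_U h K hK) hκ

end Pool.Agent.Results.MP_751bb7_an.BanachMazurBands
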